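import Pool.Agent.helper37.ND.Spec
import Pool.Agent.helper72.FI.BLE

set_option autoImplicit false

namespace Pool.Agent.ND

open Pool.Agent.helper58.DC Pool.Agent.DI Pool.Agent.GR Pool.Agent.OB Pool.Agent.DR Pool.Agent.FI Pool.Agent.FI3 Pool.Agent.FI4 Pool.Agent.FI4I Pool.Agent.LE Pool.Agent.L5 Pool.Agent.NAB

/-- conjugation does not change the multiplicity -/
theorem GSY_mt {G : Type} [Group G] (H : Subgroup G) (ψ θ : G → ℂ) (a : G) (hH : ∀ x, x ∈ H ↔ a⁻¹ * x * a ∈ H)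
    (hψ : ∀ x, ψ (a * x * a⁻¹) = ψ x) : mt H ψ (cjF a θ) = mt H ψ θ := by
  unfold FI.mt
  congr 1
  refine finsum_mem_eq_of_bijOn (fun x => a⁻¹ * x * a) ⟨?_, ?_, ?_⟩ ?_
  · intro x hx
    exact (hH x).1 hx
  · intro x _ y _ hxy
    simpa using hxy
  · intro y hy
    refine ⟨a * y * a⁻¹, ?_, ?_⟩
    · rw [SetLike.mem_coe, hH]
      have : a⁻¹ * (a * y * a⁻¹) * a = y := by group
      rw [this]; exact hy
    · show a⁻¹ * (a * y * a⁻¹) * a = y
      group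
  · intro x _
    have h1 : ψ (a⁻¹ * x * a) = ψ x := by
      rw [← hψ (a⁻¹ * x * a)]
      congr 1; group
    have h2 : cjF a θ x⁻¹ = θ (a⁻¹ * x * a)⁻¹ := by
      rw [cjF_apply]
      congr 1; group
    rw [h1, h2]

theorem GSY (hZGP : ZGP_stmt) (hGGR : GGR_stmt) (hGSP : GSP_stmt) (hGUC : GUC_stmt) (hGBC : GBC_stmt) (hGOB : GOB_stmt)
    (hQRS : QRS_stmt) (hBR0 : BR0_stmt) (hB2 : B2_stmt) : GSY_stmt := by
  intro p e m t M hM G _ _ χ Z z x hZD L A₀ hCL hA act hact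
  classical
  have hp := hM.pr
  have hem : m + 3 ≤ e := by have := hZD.em; omega
  obtain ⟨hfinL, hBL⟩ := hB2 G L
  have hBCT : BC M L (GS p e m M χ L Z) := (hGBC p e m M hM hem G χ L Z).1
  have hTI : GS p e m M χ L Z ⊆ IrrOn L := hBCT.sub
  have hTfin : (GS p e m M χ L Z).Finite := hfinL.subset hTI
  have hPfin : Finite (PP p e m M χ L Z) := hTfin.to_subtype
  have hXI : ∀ θ ∈ GS p e m M χ (cz Z) Z, θ ∈ IrrOn (cz Z) := fun θ h => h.1
  obtain ⟨-, -, hZ3, -, hZ5, -, -, -⟩ := hZGP p e m hp hem G z hZD.uc.pe hZD.uc.od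
  have hZcard : Nat.card Z = p ^ (m + 3) := by
    have := hZ3.1
    rwa [hZD.zz] at this
  have hcn : cz Z ≤ nz Z := by
    have := hZ5.2.1
    rwa [hZD.zz] at this
  have hCA : cz Z ≤ A₀ := by rw [hA]; exact le_inf hcn hCL
  have hAL : ∀ a ∈ A₀, a ∈ L := by
    intro a ha
    rw [hA] at ha
    exact ha.2
  have hAn : ∀ a ∈ A₀, a ∈ nz Z := by
    intro a ha
    rw [hA] at ha
    exact ha.1
  obtain ⟨-, -, htr, hcj⟩ := hGOB p e t hp G hZD.tx Z
  have hN : ∀ (ψ : PP p e m M χ L Z) (θ : XX p e m M χ Z), ∃ n : ℕ, mt (cz Z) (ψ : G → ℂ) (θ : G → ℂ) = n :=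
    fun ψ θ => (hQRS G L (cz Z) hCL ψ.1 (hTI ψ.2)).1 θ.1 (hXI _ θ.2)
  choose N hN using hN
  have hW : ∀ ψ : PP p e m M χ L Z, ∃ n : ℕ, 0 < n ∧ (ψ : G → ℂ) 1 = n := by
    intro ψ
    obtain ⟨n, hn, h1, -⟩ := (hBL ψ.1 (hTI ψ.2)).1
    exact ⟨n, hn, h1⟩
  choose W hW0 hW1 using hW
  have hcast : ∀ (ψ : PP p e m M χ L Z) (θ θ' : XX p e m M χ Z), orb Z t (θ : G → ℂ) (θ' : G → ℂ) →
      ((if orb Z t (θ : G → ℂ) (θ' : G → ℂ) then (N ψ θ : ℤ) - N ψ θ' else 0 : ℤ) : ℂ) =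
        mt (cz Z) (ψ : G → ℂ) (θ : G → ℂ) - mt (cz Z) (ψ : G → ℂ) (θ' : G → ℂ) := by
    intro ψ θ θ' h
    rw [if_pos h, hN, hN]
    push_cast
    ring
  refine ⟨fun ψ => (W ψ : ℤ), fun ψ θ θ' => if orb Z t (θ : G → ℂ) (θ' : G → ℂ) then (N ψ θ : ℤ) - N ψ θ' else 0,
    ?_, ?_⟩
  · intro ψ θ θ'
    show ((if orb Z t (θ : G → ℂ) (θ' : G → ℂ) then (N ψ θ : ℤ) - N ψ θ' else 0 : ℤ) : ℂ) = _
    by_cases h : orb Z t (θ : G → ℂ) (θ' : G → ℂ)
    · rw [hcast ψ θ θ' h, if_pos h]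
    · rw [if_neg h, if_neg h]
      simp
  · refine ⟨?_, ?_, ?_, ?_, ?_, ?_⟩
    · intro ψ
      exact_mod_cast hW0 ψ
    · intro ψ θ θ' θ'' h1 h2
      show (if orb Z t (θ : G → ℂ) (θ' : G → ℂ) then (N ψ θ : ℤ) - N ψ θ' else 0) +
        (if orb Z t (θ' : G → ℂ) (θ'' : G → ℂ) then (N ψ θ' : ℤ) - N ψ θ'' else 0) =
        (if orb Z t (θ : G → ℂ) (θ'' : G → ℂ) then (N ψ θ : ℤ) - N ψ θ'' else 0)
      rw [if_pos h1, if_pos h2, if_pos (htr _ _ _ h1 h2)]
      ring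
    · intro ψ a θ θ' h
      have h2 : orb Z t (act a θ : G → ℂ) (act a θ' : G → ℂ) := by
        rw [hact, hact]
        exact hcj a (hAn _ a.2) _ _ h
      show (if orb Z t (act a θ : G → ℂ) (act a θ' : G → ℂ) then (N ψ (act a θ) : ℤ) - N ψ (act a θ') else 0) =
        (if orb Z t (θ : G → ℂ) (θ' : G → ℂ) then (N ψ θ : ℤ) - N ψ θ' else 0)
      rw [if_pos h, if_pos h2]
      have hNa : ∀ θ : XX p e m M χ Z, N ψ (act a θ) = N ψ θ := by
        intro θ
        have h3 : ((N ψ (act a θ) : ℕ) : ℂ) = (N ψ θ : ℕ) := by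
          rw [← hN, ← hN, hact]
          refine GSY_mt (cz Z) _ _ _ ?_ ?_
          · intro y
            have hn := hAn _ a.2
            constructor
            · intro hy
              have hn' : (a : G)⁻¹ ∈ nz Z := (nz Z).inv_mem hn
              have := cz_conj hn' hy
              rwa [inv_inv] at this
            · intro hy
              have := cz_conj hn hy
              have h4 : (a : G) * ((a : G)⁻¹ * y * a) * (a : G)⁻¹ = y := by group
              rwa [h4] at this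
          · intro y
            exact (hBL ψ.1 (hTI ψ.2)).2.1 y a (hAL _ a.2)
        exact_mod_cast h3
      rw [hNa, hNa]
    · intro ψ θ θ' h
      exact if_neg h
    · intro θ θ' h
      have hPF : Fintype (PP p e m M χ L Z) := Fintype.ofFinite _
      have hGF : Fintype G := Fintype.ofFinite G
      rw [finsum_eq_sum_of_fintype]
      have hcz : (Nat.card (cz Z) : ℂ) ≠ 0 := by
        have : 0 < Nat.card (cz Z) := Nat.card_pos
        exact_mod_cast this.ne'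
      apply Int.cast_injective (α := ℂ)
      push_cast
      have hS : ((cz Z : Subgroup G) : Set G).Finite := Set.toFinite _
      have hmt : ∀ ψ θ : G → ℂ, mt (cz Z) ψ θ = (∑ a ∈ hS.toFinset, ψ a * θ a⁻¹) / Nat.card (cz Z) := by
        intro ψ θ
        unfold FI.mt
        rw [finsum_mem_eq_finite_toFinset_sum _ hS]
      have hSf : ∀ a b : G, Sf (GS p e m M χ L Z) a b = ∑ ψ : PP p e m M χ L Z, (ψ : G → ℂ) a * (ψ : G → ℂ) b⁻¹ := by
        intro a b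
        unfold Sf
        rw [← finsum_eq_sum_of_fintype]
        exact (finsum_set_coe_eq_finsum_mem (GS p e m M χ L Z)).symm
      have hterm : ∀ a : G, a ∈ cz Z → (∑ ψ : PP p e m M χ L Z, (ψ : G → ℂ) 1 * (ψ : G → ℂ) a) *
          ((θ : G → ℂ) a⁻¹ - (θ' : G → ℂ) a⁻¹) = 0 := by
        intro a haC
        by_cases hZa : Z ≤ Subgroup.zpowers a⁻¹
        · have hreg : ¬ PReg p a⁻¹ := by
            intro h1
            apply h1
            have h2 := Subgroup.card_dvd_of_le hZa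
            rw [hZcard, Nat.card_zpowers] at h2
            exact (dvd_pow_self p (by omega)).trans h2
          obtain ⟨i, j, hij, hpe, hpr, hne⟩ := BLE_split hp a⁻¹ hreg
          have haL : a⁻¹ ∈ L := L.inv_mem (hCL haC)
          have h3 := hBR0 p M hM G L (GS p e m M χ L Z) hBCT 1 L.one_mem 1 L.one_mem (a⁻¹ ^ i) (L.pow_mem haL i)
            (a⁻¹ ^ j) (L.pow_mem haL j) ⟨0, by simp⟩ hpe (by
              intro h4
              rw [orderOf_one] at h4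
              exact hp.one_lt.ne' (Nat.dvd_one.1 h4)) hpr (Commute.refl 1)
            ((Commute.refl a⁻¹).pow_pow i j) (by
              intro h _ h4
              apply hne
              rw [← h4]; group)
          rw [hij, one_mul, hSf] at h3
          simp only [inv_inv] at h3
          rw [h3, zero_mul]
        · obtain ⟨ν, hν⟩ := h
          have h3 := hGSP p e m t M hM G χ Z z x hZD θ.1 θ.2 ν a⁻¹ hZa
          rw [← hν] at h3
          rw [h3, sub_self, mul_zero]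
      have hsum : ∑ ψ : PP p e m M χ L Z, (ψ : G → ℂ) 1 * (mt (cz Z) (ψ : G → ℂ) (θ : G → ℂ) -
          mt (cz Z) (ψ : G → ℂ) (θ' : G → ℂ)) = 0 := by
        have h1 : ∀ ψ : PP p e m M χ L Z, (ψ : G → ℂ) 1 * (mt (cz Z) (ψ : G → ℂ) (θ : G → ℂ) -
            mt (cz Z) (ψ : G → ℂ) (θ' : G → ℂ)) =
            (∑ a ∈ hS.toFinset, (ψ : G → ℂ) 1 * (ψ : G → ℂ) a * ((θ : G → ℂ) a⁻¹ - (θ' : G → ℂ) a⁻¹)) /
              Nat.card (cz Z) := by
          intro ψ
          rw [hmt, hmt, ← sub_div, ← Finset.sum_sub_distrib, mul_div_assoc', Finset.mul_sum]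
          congr 1
          refine Finset.sum_congr rfl fun a _ => ?_
          ring
        rw [Finset.sum_congr rfl fun ψ _ => h1 ψ, ← Finset.sum_div, Finset.sum_comm]
        have h2 : ∀ a ∈ hS.toFinset, ∑ ψ : PP p e m M χ L Z, (ψ : G → ℂ) 1 * (ψ : G → ℂ) a *
            ((θ : G → ℂ) a⁻¹ - (θ' : G → ℂ) a⁻¹) = 0 := by
          intro a ha
          rw [← Finset.sum_mul]
          exact hterm a (hS.mem_toFinset.1 ha)
        rw [Finset.sum_eq_zero h2, zero_div]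
      refine (Finset.sum_congr rfl fun ψ _ => ?_).trans hsum
      rw [← hcast ψ θ θ' h, hW1]
      push_cast
      ring
    · intro θ₁ θ₁' θ₂ θ₂' h1 h2
      have hPF : Fintype (PP p e m M χ L Z) := Fintype.ofFinite _
      have hAF : Fintype A₀ := Fintype.ofFinite _
      have hK : Nat.card ((cz Z).subgroupOf A₀) = Nat.card (cz Z) :=
        Nat.card_congr (Subgroup.subgroupOfEquivOfLe hCA).toEquiv
      obtain ⟨ψ₀, hψ₀, hSB⟩ := hGUC p e m t M hM G χ Z z x hZD L hCL θ₂.1 θ₂.2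
      have hG := (hGGR p e m t M hM G χ Z z x hZD L hCL (GS p e m M χ L Z) hBCT θ₁.1 θ₁.2 θ₁'.1 h1 θ₂.1 θ₂.2
        θ₂'.1 h2).1 ⟨ψ₀, hψ₀, hSB⟩
      rw [← hA, ← finsum_set_coe_eq_finsum_mem (GS p e m M χ L Z), ← finsum_set_coe_eq_finsum_mem (A₀ : Set G)] at hG
      apply Int.cast_injective (α := ℂ)
      rw [hK, finsum_eq_sum_of_fintype, finsum_eq_sum_of_fintype]
      have hL : ((((Nat.card (cz Z) : ℕ) : ℤ) * ∑ ψ : PP p e m M χ L Z,
          (if orb Z t (θ₁ : G → ℂ) (θ₁' : G → ℂ) then (N ψ θ₁ : ℤ) - N ψ θ₁' else 0) *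
          (if orb Z t (θ₂ : G → ℂ) (θ₂' : G → ℂ) then (N ψ θ₂ : ℤ) - N ψ θ₂' else 0) : ℤ) : ℂ) =
          (Nat.card (cz Z) : ℂ) * ∑ᶠ ψ : (GS p e m M χ L Z), (mt (cz Z) (ψ : G → ℂ) θ₁.1 - mt (cz Z) (ψ : G → ℂ) θ₁'.1) *
            (mt (cz Z) (ψ : G → ℂ) θ₂.1 - mt (cz Z) (ψ : G → ℂ) θ₂'.1) := by
        rw [Int.cast_mul, Int.cast_sum, Int.cast_natCast]
        congr 1
        rw [show (∑ᶠ ψ : (GS p e m M χ L Z), (mt (cz Z) (ψ : G → ℂ) θ₁.1 - mt (cz Z) (ψ : G → ℂ) θ₁'.1) *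
            (mt (cz Z) (ψ : G → ℂ) θ₂.1 - mt (cz Z) (ψ : G → ℂ) θ₂'.1)) =
            ∑ᶠ ψ : PP p e m M χ L Z, (mt (cz Z) (ψ : G → ℂ) θ₁.1 - mt (cz Z) (ψ : G → ℂ) θ₁'.1) *
            (mt (cz Z) (ψ : G → ℂ) θ₂.1 - mt (cz Z) (ψ : G → ℂ) θ₂'.1) from rfl, finsum_eq_sum_of_fintype]
        refine Finset.sum_congr rfl fun ψ _ => ?_
        rw [Int.cast_mul, hcast ψ θ₁ θ₁' h1, hcast ψ θ₂ θ₂' h2]
      refine hL.trans (hG.trans ?_)
      rw [Int.cast_sum]
      rw [show (∑ᶠ s : (A₀ : Set G), ((if cjF (s : G) θ₂.1 = θ₁.1 then (1 : ℂ) else 0) -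
          (if cjF (s : G) θ₂.1 = θ₁'.1 then 1 else 0) - (if cjF (s : G) θ₂'.1 = θ₁.1 then 1 else 0) +
          (if cjF (s : G) θ₂'.1 = θ₁'.1 then 1 else 0))) = ∑ᶠ s : A₀, ((if cjF (s : G) θ₂.1 = θ₁.1 then (1 : ℂ) else 0) -
          (if cjF (s : G) θ₂.1 = θ₁'.1 then 1 else 0) - (if cjF (s : G) θ₂'.1 = θ₁.1 then 1 else 0) +
          (if cjF (s : G) θ₂'.1 = θ₁'.1 then 1 else 0)) from rfl, finsum_eq_sum_of_fintype]
      refine Finset.sum_congr rfl fun s _ => ?_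
      have key : ∀ θ θ' : XX p e m M χ Z, (if cjF (s : G) θ.1 = θ'.1 then (1 : ℂ) else 0) =
          ((if act s θ = θ' then (1 : ℤ) else 0 : ℤ) : ℂ) := by
        intro θ θ'
        by_cases hh : act s θ = θ'
        · have hh' : cjF (s : G) θ.1 = θ'.1 := by rw [← hact, hh]
          rw [if_pos hh, if_pos hh']; simp
        · have hh' : ¬ cjF (s : G) θ.1 = θ'.1 := by
            intro h3
            apply hh
            apply Subtype.ext
            rw [hact, h3]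
          rw [if_neg hh, if_neg hh']; simp
      rw [key, key, key, key]
      push_cast
      ring

end Pool.Agent.ND
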